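import Pool.Agent.helper84.WZ.SpecA

/-!
# Project wz, module FLX: the flow property for realisations
-/

set_option autoImplicit false

namespace WZ

open Filter

theorem FLX_SR (h R p j : ℕ) (hh : 3 ≤ h) (hj : j ≤ 1) (hR : 1 ≤ R) :
    R ^ (p * (2 * h + 2) + 1) + R ≤ SR h R p j ∧
      SR h R p j ≤ (h - 1) * R ^ (p * (2 * h + 2) + (2 * h - 2)) := by
  unfold SR
  constructor
  · obtain ⟨k, hk⟩ : ∃ k, h - 1 = k + 2 := ⟨h - 3, by omega⟩
    rw [hk, Finset.sum_range_succ', Finset.sum_range_succ']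
    have h1 : R ^ (p * (2 * h + 2) + 1) ≤ R ^ (p * (2 * h + 2) + (2 * 0 + j) + 1) :=
      Nat.pow_le_pow_right hR (by omega)
    have h2 : R ≤ R ^ (p * (2 * h + 2) + (2 * (0 + 1) + j) + 1) := by
      calc R = R ^ 1 := (pow_one R).symm
        _ ≤ _ := Nat.pow_le_pow_right hR (by omega)
    omega
  · calc ∑ i ∈ Finset.range (h - 1), R ^ (p * (2 * h + 2) + (2 * i + j) + 1)
        ≤ ∑ i ∈ Finset.range (h - 1), R ^ (p * (2 * h + 2) + (2 * h - 2)) := by
          apply Finset.sum_le_sum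
          intro i hi
          rw [Finset.mem_range] at hi
          exact Nat.pow_le_pow_right hR (by omega)
      _ = _ := by rw [Finset.sum_const, Finset.card_range, smul_eq_mul]

theorem FLX_bd (h R D n p : ℕ) (v : ℤ × ℤ) (u : ℕ) (hh : 3 ≤ h) (hR : D * n + h + 2 ≤ R)
    (hv1 : |v.1| ≤ n) (hv2 : |v.2| ≤ n) (hu : u < 2 * h) :
    R ^ (p * (2 * h + 2) + 1) ≤ exl h R D p (Lt.k v) u ∧
      exl h R D p (Lt.k v) u ≤ R ^ (p * (2 * h + 2) + 2 * h) := by
  have hR1 : 1 ≤ R := by omega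
  have key : ∀ (j : ℕ) (z : ℤ), j ≤ 1 → |z| ≤ n →
      R ^ (p * (2 * h + 2) + 1) ≤ ((SR h R p j : ℤ) - D * z).toNat ∧
        ((SR h R p j : ℤ) - D * z).toNat ≤ R ^ (p * (2 * h + 2) + 2 * h) := by
    intro j z hj hz
    obtain ⟨h1, h2⟩ := FLX_SR h R p j hh hj hR1
    have h3 : |(D : ℤ) * z| ≤ D * n := by
      rw [abs_mul, Nat.abs_cast]
      exact mul_le_mul_of_nonneg_left hz (by positivity)
    rw [abs_le] at h3
    have h4 : SR h R p j + D * n ≤ R ^ (p * (2 * h + 2) + 2 * h) := by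
      have h5 : R ≤ R ^ (p * (2 * h + 2) + (2 * h - 2)) := by
        calc R = R ^ 1 := (pow_one R).symm
          _ ≤ _ := Nat.pow_le_pow_right hR1 (by omega)
      calc SR h R p j + D * n
          ≤ (h - 1) * R ^ (p * (2 * h + 2) + (2 * h - 2)) + R ^ (p * (2 * h + 2) + (2 * h - 2)) := by
            omega
        _ = (h - 1 + 1) * R ^ (p * (2 * h + 2) + (2 * h - 2)) := by ring
        _ ≤ R * R ^ (p * (2 * h + 2) + (2 * h - 2)) := Nat.mul_le_mul_right _ (by omega)
        _ = R ^ (p * (2 * h + 2) + (2 * h - 2) + 1) := by rw [pow_succ, mul_comm]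
        _ ≤ R ^ (p * (2 * h + 2) + 2 * h) := Nat.pow_le_pow_right hR1 (by omega)
    have h6 : ((R ^ (p * (2 * h + 2) + 1) : ℕ) : ℤ) + D * n ≤ SR h R p j := by
      have : R ^ (p * (2 * h + 2) + 1) + D * n ≤ SR h R p j := by omega
      exact_mod_cast this
    have h7 : (SR h R p j : ℤ) + D * n ≤ ((R ^ (p * (2 * h + 2) + 2 * h) : ℕ) : ℤ) := by
      exact_mod_cast h4
    have h8 : (0 : ℤ) ≤ ((R ^ (p * (2 * h + 2) + 1) : ℕ) : ℤ) := by positivity
    generalize R ^ (p * (2 * h + 2) + 1) = a at *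
    generalize R ^ (p * (2 * h + 2) + 2 * h) = b at *
    generalize (D : ℤ) * z = c at *
    constructor <;> omega
  unfold exl
  simp only
  split_ifs with h1 h2 h3
  · constructor <;> exact Nat.pow_le_pow_right hR1 (by omega)
  · exact key 0 v.1 (by omega) hv1
  · exact key 1 v.2 (by omega) hv2
  · omega

theorem FLX (hFL : FL_stmt) : FLX_stmt := by
  intro h n B S₀ K D hh
  refine ⟨2 * K * B + S₀ + h + D * n + 2, ?_⟩
  intro R hR s _ hbox Q nn a' hQ hπ ha' he
  have hR1 : 1 ≤ R := by omega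
  have hcd : Q.card * B ≤ K * B := Nat.mul_le_mul_right _ hQ
  have hKB : 2 * K * B = 2 * (K * B) := by ring
  refine hFL h B S₀ Q nn a' (ex h R D s) _ (fun p => R ^ (p * (2 * h + 2) + 1))
    (fun p => R ^ (p * (2 * h + 2) + 2 * h)) ha' hπ he ?_ ?_ ?_ ?_
  · intro q hq
    unfold ex
    split
    · exact Nat.zero_le _
    · rename_i x hx
      cases x with
      | c b =>
        cases b
        · simp only [exl]; split_ifs <;> omega
        · simp only [exl]; split_ifs <;> omega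
      | k v =>
        have h1 : ¬ q % (2 * h + 2) < 2 * h := fun h2 => hq ⟨⟨v, hx⟩, h2⟩
        simp only [exl]
        split_ifs <;> omega
  · rintro q ⟨⟨v, hv⟩, hq⟩
    have hmem : Lt.k v ∈ s.toList := List.mem_of_getElem? hv
    have hb := hbox v hmem
    have h1 : ex h R D s q = exl h R D (q / (2 * h + 2)) (Lt.k v) (q % (2 * h + 2)) := by
      unfold ex
      rw [hv]
    rw [h1]
    exact FLX_bd h R D n _ v _ hh (by omega) hb.1 hb.2 hq
  · intro p _
    show Q.card * B * 2 + S₀ < R ^ (p * (2 * h + 2) + 1)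
    have h1 : R ≤ R ^ (p * (2 * h + 2) + 1) := by
      calc R = R ^ 1 := (pow_one R).symm
        _ ≤ _ := Nat.pow_le_pow_right hR1 (by omega)
    omega
  · intro p p' _ _ hp
    show Q.card * B * (R ^ (p' * (2 * h + 2) + 2 * h) + 1) + S₀ < R ^ (p * (2 * h + 2) + 1)
    have hy : 1 ≤ R ^ (p' * (2 * h + 2) + 2 * h) := Nat.one_le_pow _ _ hR1
    have h1 : R * R ^ (p' * (2 * h + 2) + 2 * h) ≤ R ^ (p * (2 * h + 2) + 1) := by
      rw [← pow_succ']
      apply Nat.pow_le_pow_right hR1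
      have : (p' + 1) * (2 * h + 2) ≤ p * (2 * h + 2) := Nat.mul_le_mul_right _ hp
      have e : (p' + 1) * (2 * h + 2) = p' * (2 * h + 2) + (2 * h + 2) := by ring
      omega
    refine lt_of_lt_of_le ?_ h1
    generalize R ^ (p' * (2 * h + 2) + 2 * h) = y at *
    calc Q.card * B * (y + 1) + S₀ ≤ K * B * (y + y) + S₀ * y := by
          refine Nat.add_le_add (Nat.mul_le_mul hcd (by omega)) ?_
          exact Nat.le_mul_of_pos_right _ hy
      _ = (2 * K * B + S₀) * y := by ring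
      _ < R * y := Nat.mul_lt_mul_of_pos_right (by omega) hy

end WZ
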