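import Pool.Agent.helper84.WZ.SpecA

/-!
# Project wz, module K1: one-letter languages are semilinear
-/

set_option autoImplicit false

namespace WZ

open Filter

/-- One-letter derivation trees with states in `V`: root, value, size. -/
inductive K1_T {T : Type} (S : Sys T) (a : T) (V : Set S.St) : S.St → ℕ → ℕ → Prop
  | nl {β : S.St} : β ∈ V → S.nl β → K1_T S a V β 0 1
  | rd {β γ : S.St} {n m : ℕ} : β ∈ V → S.rd β a γ → K1_T S a V γ n m → K1_T S a V β (n + 1) (m + 1)
  | sp {β α γ : S.St} {n m n' m' : ℕ} : β ∈ V → S.sp β α γ → K1_T S a V α n m →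
      K1_T S a V γ n' m' → K1_T S a V β (n + n') (m + m' + 1)

theorem K1_mono {T : Type} {S : Sys T} {a : T} {V V' : Set S.St} (hV : V ⊆ V') {β : S.St} {n m : ℕ}
    (h : K1_T S a V β n m) : K1_T S a V' β n m := by
  induction h with
  | nl h1 h2 => exact .nl (hV h1) h2
  | rd h1 h2 _ ih => exact .rd (hV h1) h2 ih
  | sp h1 h2 _ _ ih ih' => exact .sp (hV h1) h2 ih ih'

theorem K1_der {T : Type} {S : Sys T} {a : T} {β : S.St} {w : List T} (h : S.Der β w) :
    ∀ n, w = List.replicate n a → ∃ m, K1_T S a Set.univ β n m := by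
  induction h with
  | nl h1 =>
    intro n hn
    have : n = 0 := by
      have := congrArg List.length hn
      simpa using this.symm
    subst this
    exact ⟨1, .nl (Set.mem_univ _) h1⟩
  | @rd β γ b w h1 _ ih =>
    intro n hn
    cases n with
    | zero => simp at hn
    | succ n =>
      rw [List.replicate_succ] at hn
      obtain ⟨rfl, hw⟩ := List.cons.inj hn
      obtain ⟨m, hm⟩ := ih n hw
      exact ⟨m + 1, .rd (Set.mem_univ _) h1 hm⟩
  | @sp β α γ u v h1 _ _ ih ih' =>
    intro n hn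
    obtain ⟨h2, h3, h4⟩ := List.append_eq_replicate_iff.1 hn
    obtain ⟨m, hm⟩ := ih _ h3
    obtain ⟨m', hm'⟩ := ih' _ h4
    refine ⟨m + m' + 1, ?_⟩
    rw [← h2]
    exact .sp (Set.mem_univ _) h1 hm hm'

theorem K1_red {T : Type} {S : Sys T} {a : T} {V : Set S.St} {β : S.St} {n m : ℕ}
    (h : K1_T S a V β n m) : S.Der β (List.replicate n a) := by
  induction h with
  | nl _ h2 => exact .nl h2
  | rd _ h2 _ ih =>
    rw [List.replicate_succ]
    exact .rd h2 ih
  | sp _ h2 _ _ ih ih' =>
    rw [List.replicate_add]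
    exact .sp h2 ih ih'

/-- the values derived from a state -/
def K1_X {T : Type} (S : Sys T) (a : T) (β : S.St) : Set ℕ := {n | ∃ m, K1_T S a Set.univ β n m}

theorem K1_X_eq {T : Type} (S : Sys T) (a : T) (β : S.St) :
    {n : ℕ | S.Der β (List.replicate n a)} = K1_X S a β := by
  ext n
  exact ⟨fun h => K1_der h n rfl, fun ⟨_, h⟩ => K1_red h⟩

theorem K1_mem {T : Type} {S : Sys T} {a : T} {V : Set S.St} {β : S.St} {n m : ℕ}
    (h : K1_T S a V β n m) : n ∈ K1_X S a β := ⟨m, K1_mono (Set.subset_univ _) h⟩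

theorem K1_X_rd {T : Type} {S : Sys T} {a : T} {β γ : S.St} {n : ℕ} (h : S.rd β a γ)
    (hn : n ∈ K1_X S a γ) : n + 1 ∈ K1_X S a β := by
  obtain ⟨m, hm⟩ := hn
  exact ⟨m + 1, .rd (Set.mem_univ _) h hm⟩

theorem K1_X_sp {T : Type} {S : Sys T} {a : T} {β α γ : S.St} {n n' : ℕ} (h : S.sp β α γ)
    (hn : n ∈ K1_X S a α) (hn' : n' ∈ K1_X S a γ) : n + n' ∈ K1_X S a β := by
  obtain ⟨m, hm⟩ := hn
  obtain ⟨m', hm'⟩ := hn'
  exact ⟨m + m' + 1, .sp (Set.mem_univ _) h hm hm'⟩

/-- pumpable states -/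
def K1_pu {T : Type} (S : Sys T) (a : T) (β : S.St) : Prop :=
  ∃ π : ℕ, 0 < π ∧ ∀ x ∈ K1_X S a β, x + π ∈ K1_X S a β

theorem K1_iter {X : Set ℕ} {π : ℕ} (h : ∀ x ∈ X, x + π ∈ X) (t : ℕ) : ∀ x ∈ X, x + t * π ∈ X := by
  induction t with
  | zero => intro x hx; simpa using hx
  | succ t ih =>
    intro x hx
    have := h _ (ih x hx)
    have e : x + (t + 1) * π = x + t * π + π := by ring
    rw [e]
    exact this

/-- a common period of all the pumpable states -/
theorem K1_P {T : Type} (S : Sys T) (a : T) : ∃ P : ℕ, 0 < P ∧ ∀ β, K1_pu S a β →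
    ∀ t, ∀ x ∈ K1_X S a β, x + t * P ∈ K1_X S a β := by
  classical
  have : Finite S.St := S.fin
  have : Fintype S.St := Fintype.ofFinite _
  choose! g hg using (fun β (h : K1_pu S a β) => h)
  let g' : S.St → ℕ := fun β => if K1_pu S a β then g β else 1
  refine ⟨∏ β, g' β, Finset.prod_pos fun β _ => ?_, ?_⟩
  · show 0 < if K1_pu S a β then g β else 1
    split_ifs with h
    · exact (hg β h).1
    · exact one_pos
  · intro β hβ t x hx
    obtain ⟨c, hc⟩ : g' β ∣ ∏ β, g' β := Finset.dvd_prod_of_mem _ (Finset.mem_univ β)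
    have hgβ : g' β = g β := if_pos hβ
    rw [hc, hgβ]
    have := K1_iter (hg β hβ).2 (t * c) x hx
    have e : t * (g β * c) = t * c * g β := by ring
    rw [e]
    exact this

/-- part (1) -/
theorem K1_one {T : Type} {S : Sys T} {a : T} {P : ℕ}
    (hP : ∀ β, K1_pu S a β → ∀ t, ∀ x ∈ K1_X S a β, x + t * P ∈ K1_X S a β)
    {β : S.St} {n m : ℕ} (h : K1_T S a Set.univ β n m) :
    (∀ t, n + t * P ∈ K1_X S a β) ∨ K1_T S a {β | ¬ K1_pu S a β} β n m := by
  induction h with
  | @nl β h1 h2 =>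
    by_cases hβ : K1_pu S a β
    · left
      intro t
      exact hP β hβ t 0 (K1_mem (.nl h1 h2))
    · right
      exact .nl hβ h2
  | @rd β γ n m h1 h2 h3 ih =>
    by_cases hβ : K1_pu S a β
    · left
      intro t
      exact hP β hβ t _ (K1_mem (.rd h1 h2 h3))
    · rcases ih with ih | ih
      · left
        intro t
        have := K1_X_rd h2 (ih t)
        have e : n + 1 + t * P = n + t * P + 1 := by ring
        rw [e]
        exact this
      · right
        exact .rd hβ h2 ih
  | @sp β α γ n m n' m' h1 h2 h3 h4 ih ih' =>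
    by_cases hβ : K1_pu S a β
    · left
      intro t
      exact hP β hβ t _ (K1_mem (.sp h1 h2 h3 h4))
    · rcases ih with ih | ih
      · left
        intro t
        have := K1_X_sp h2 (ih t) (K1_mem h4)
        have e : n + n' + t * P = n + t * P + n' := by ring
        rw [e]
        exact this
      · rcases ih' with ih' | ih'
        · left
          intro t
          have := K1_X_sp h2 (K1_mem h3) (ih' t)
          have e : n + n' + t * P = n + (n' + t * P) := by ring
          rw [e]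
          exact this
        · right
          exact .sp hβ h2 ih ih'

/-- the claim of part (2) -/
theorem K1_claim {T : Type} {S : Sys T} {a : T} {V : Set S.St} (α : S.St)
    {β : S.St} {n m : ℕ} (h : K1_T S a V β n m) :
    K1_T S a (V \ {α}) β n m ∨ ∃ c x' m' : ℕ, n = c + x' ∧ K1_T S a V α x' m' ∧ m' ≤ m ∧
      ∀ y ∈ K1_X S a α, c + y ∈ K1_X S a β := by
  induction h with
  | @nl β h1 h2 =>
    by_cases hβ : β = α
    · subst hβ
      right
      exact ⟨0, 0, 1, rfl, .nl h1 h2, le_rfl, fun y hy => by simpa using hy⟩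
    · left
      exact .nl ⟨h1, hβ⟩ h2
  | @rd β γ n m h1 h2 h3 ih =>
    by_cases hβ : β = α
    · subst hβ
      right
      exact ⟨0, n + 1, m + 1, by omega, .rd h1 h2 h3, le_rfl, fun y hy => by simpa using hy⟩
    · rcases ih with ih | ⟨c, x', m', e1, e2, e3, e4⟩
      · left
        exact .rd ⟨h1, hβ⟩ h2 ih
      · right
        refine ⟨c + 1, x', m', by omega, e2, by omega, fun y hy => ?_⟩
        have := K1_X_rd h2 (e4 y hy)
        have e : c + 1 + y = c + y + 1 := by ring
        rw [e]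
        exact this
  | @sp β α' γ n m n' m'' h1 h2 h3 h4 ih ih' =>
    by_cases hβ : β = α
    · subst hβ
      right
      exact ⟨0, n + n', _, by omega, .sp h1 h2 h3 h4, le_rfl, fun y hy => by simpa using hy⟩
    · rcases ih with ih | ⟨c, x', m', e1, e2, e3, e4⟩
      · rcases ih' with ih' | ⟨c, x', m', e1, e2, e3, e4⟩
        · left
          exact .sp ⟨h1, hβ⟩ h2 ih ih'
        · right
          refine ⟨n + c, x', m', by omega, e2, by omega, fun y hy => ?_⟩
          have := K1_X_sp h2 (K1_mem h3) (e4 y hy)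
          have e : n + c + y = n + (c + y) := by ring
          rw [e]
          exact this
      · right
        refine ⟨c + n', x', m', by omega, e2, by omega, fun y hy => ?_⟩
        have := K1_X_sp h2 (e4 y hy) (K1_mem h4)
        have e : c + n' + y = c + y + n' := by ring
        rw [e]
        exact this

/-- one step of part (2): a tree of minimal size with root `α` has its children in `V \ {α}` -/
theorem K1_step {T : Type} {S : Sys T} {a : T} {V : Set S.St} {α : S.St} (hα : ¬ K1_pu S a α)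
    {x m : ℕ} (h : K1_T S a V α x m) (hmin : ∀ m', K1_T S a V α x m' → m ≤ m') :
    x = 0 ∨ (∃ γ n m', K1_T S a (V \ {α}) γ n m' ∧ x = n + 1) ∨
      ∃ β γ n n' m' m'', K1_T S a (V \ {α}) β n m' ∧ K1_T S a (V \ {α}) γ n' m'' ∧ x = n + n' := by
  have hpu : ∀ c : ℕ, (∀ y ∈ K1_X S a α, c + y ∈ K1_X S a α) → c = 0 := by
    intro c hc
    by_contra h0
    exact hα ⟨c, Nat.pos_of_ne_zero h0, fun y hy => by rw [add_comm]; exact hc y hy⟩
  cases h with
  | nl h1 h2 => exact Or.inl rfl
  | @rd _ γ n m h1 h2 h3 =>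
    rcases K1_claim α h3 with h4 | ⟨c, x', m', e1, e2, e3, e4⟩
    · exact Or.inr (Or.inl ⟨γ, n, m, h4, rfl⟩)
    · exfalso
      have := hpu (c + 1) (fun y hy => by
        have := K1_X_rd h2 (e4 y hy)
        have e : c + 1 + y = c + y + 1 := by ring
        rw [e]
        exact this)
      omega
  | @sp _ β γ n m n' m'' h1 h2 h3 h4 =>
    rcases K1_claim α h3 with h5 | ⟨c, x', m', e1, e2, e3, e4⟩
    · rcases K1_claim α h4 with h6 | ⟨c, x', m', e1, e2, e3, e4⟩
      · exact Or.inr (Or.inr ⟨β, γ, n, n', m, m'', h5, h6, rfl⟩)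
      · exfalso
        have h7 := hpu (n + c) (fun y hy => by
          have := K1_X_sp h2 (K1_mem h3) (e4 y hy)
          have e : n + c + y = n + (c + y) := by ring
          rw [e]
          exact this)
        have h8 : x' = n + n' := by omega
        rw [← h8] at hmin
        have := hmin m' e2
        omega
    · exfalso
      have h7 := hpu (c + n') (fun y hy => by
        have := K1_X_sp h2 (e4 y hy) (K1_mem h4)
        have e : c + n' + y = c + y + n' := by ring
        rw [e]
        exact this)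
      have h8 : x' = n + n' := by omega
      rw [← h8] at hmin
      have := hmin m' e2
      omega

/-- part (2) -/
theorem K1_two {T : Type} {S : Sys T} {a : T} (k : ℕ) : ∀ V : Set S.St, V.ncard = k →
    (∀ β ∈ V, ¬ K1_pu S a β) → ∀ β, {n | ∃ m, K1_T S a V β n m}.Finite := by
  classical
  have hfin : Finite S.St := S.fin
  induction k with
  | zero =>
    intro V hV _ β
    have hV0 : V = ∅ := (Set.ncard_eq_zero (Set.toFinite V)).1 hV
    subst hV0
    refine Set.Finite.subset Set.finite_empty ?_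
    rintro n ⟨m, hm⟩
    exfalso
    cases hm with
    | nl h _ => exact h
    | rd h _ _ => exact h
    | sp h _ _ _ => exact h
  | succ k ih =>
    intro V hV hpu β
    by_cases hβ : β ∈ V
    · have hc : (V \ {β}).ncard = k := by
        rw [Set.ncard_sdiff_singleton_of_mem hβ, hV]; rfl
      have hf := ih (V \ {β}) hc (fun γ hγ => hpu γ hγ.1)
      have hU : (⋃ γ, {n | ∃ m, K1_T S a (V \ {β}) γ n m}).Finite := Set.finite_iUnion hf
      refine Set.Finite.subset ((Set.finite_singleton 0).union ((hU.image (fun n => n + 1)).union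
        (hU.image2 (fun n n' => n + n') hU))) ?_
      rintro x ⟨m, hm⟩
      have hex : ∃ m, K1_T S a V β x m := ⟨m, hm⟩
      rcases K1_step (hpu β hβ) (Nat.find_spec hex) (fun m' hm' => Nat.find_min' hex hm') with
        h | ⟨γ, n, m', h1, h2⟩ | ⟨δ, γ, n, n', m', m'', h1, h2, h3⟩
      · exact Or.inl h
      · refine Or.inr (Or.inl ⟨n, Set.mem_iUnion.2 ⟨γ, m', h1⟩, h2.symm⟩)
      · exact Or.inr (Or.inr ⟨n, Set.mem_iUnion.2 ⟨δ, m', h1⟩, n', Set.mem_iUnion.2 ⟨γ, m'', h2⟩,
          h3.symm⟩)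
    · refine Set.Finite.subset Set.finite_empty ?_
      rintro n ⟨m, hm⟩
      exfalso
      cases hm with
      | nl h _ => exact hβ h
      | rd h _ _ => exact hβ h
      | sp h _ _ _ => exact hβ h

/-- part (3) -/
theorem K1_three {X : Set ℕ} {k P : ℕ} (hP : 0 < P) (h : ∀ x ≥ k, x ∈ X → x + P ∈ X) :
    ∃ k, ∃ p > 0, ∀ x ≥ k, x ∈ X ↔ x + p ∈ X := by
  classical
  let g : ℕ → ℕ := fun r => if hr : ∃ x, k ≤ x ∧ x ∈ X ∧ x % P = r then hr.choose else 0
  have hup : ∀ x ≥ k, x ∈ X → ∀ t, x + t * P ∈ X := by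
    intro x hx hxX t
    induction t with
    | zero => simpa using hxX
    | succ t ih =>
      have := h (x + t * P) (by omega) ih
      have e : x + (t + 1) * P = x + t * P + P := by ring
      rw [e]
      exact this
  refine ⟨k + ∑ r ∈ Finset.range P, g r, P, hP, fun x hx => ⟨fun hxX => h x (by omega) hxX,
    fun hxX => ?_⟩⟩
  have hr : ∃ y, k ≤ y ∧ y ∈ X ∧ y % P = x % P := ⟨x + P, by omega, hxX, by simp⟩
  have hg : g (x % P) = hr.choose := dif_pos hr
  obtain ⟨h1, h2, h3⟩ := hr.choose_spec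
  have h4 : g (x % P) ≤ ∑ r ∈ Finset.range P, g r :=
    Finset.single_le_sum (f := g) (fun _ _ => Nat.zero_le _)
      (Finset.mem_range.2 (Nat.mod_lt _ hP))
  rw [hg] at h4
  have h5 : hr.choose ≤ x := by omega
  obtain ⟨t, ht⟩ : P ∣ x - hr.choose := (Nat.modEq_iff_dvd' h5).1 h3
  have h6 : x = hr.choose + t * P := by
    rw [mul_comm] at ht
    omega
  rw [h6]
  exact hup _ h1 h2 t

theorem K1 : K1_stmt := by
  classical
  intro T S a β
  rw [K1_X_eq, Nat.isSemilinearSet_iff_ultimately_periodic]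
  obtain ⟨P, hP, hPP⟩ := K1_P S a
  have hF := K1_two (S := S) (a := a) _ {β | ¬ K1_pu S a β} rfl (fun _ h => h) β
  obtain ⟨k, hk⟩ := hF.bddAbove
  refine K1_three (k := k + 1) hP ?_
  rintro x hx ⟨m, hm⟩
  rcases K1_one hPP hm with h | h
  · simpa using h 1
  · exfalso
    have := hk ⟨m, h⟩
    omega

end WZ
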