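import Pool.Agent.helper84.WZ.SpecA

/-!
# Project wz, module LA: uniformly bounded integral annihilators
-/

set_option autoImplicit false

namespace WZ

open Filter

theorem LA_finite (M B : ℕ) :
    {π : ℕ → ℕ | (∀ q, π q ≤ B) ∧ ∀ q, M ≤ q → π q = 0}.Finite := by
  classical
  let g : (Fin M → Fin (B + 1)) → (ℕ → ℕ) := fun f q => if h : q < M then (f ⟨q, h⟩ : ℕ) else 0
  refine (Set.finite_range g).subset ?_
  rintro π ⟨h1, h2⟩
  refine ⟨fun q => ⟨π q, Nat.lt_succ_of_le (h1 q)⟩, ?_⟩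
  funext q
  by_cases h : q < M
  · simp [g, h]
  · simp [g, h, h2 q (not_lt.1 h)]

/-- clearing denominators -/
theorem LA_clear {M : ℕ} (s : Fin M → ℚ) : ∃ (N : ℕ) (φ : ℕ → ℤ), 0 < N ∧
    (∀ q, M ≤ q → φ q = 0) ∧ ∀ q : Fin M, (φ q : ℚ) = N * s q := by
  classical
  have h1 : ∀ q : Fin M, ∃ z : ℤ, (z : ℚ) = ((∏ q, (s q).den : ℕ) : ℚ) * s q := by
    intro q
    obtain ⟨k, hk⟩ : (s q).den ∣ ∏ q, (s q).den := Finset.dvd_prod_of_mem _ (Finset.mem_univ q)
    refine ⟨k * (s q).num, ?_⟩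
    rw [hk]
    push_cast
    have h2 : ((s q).num : ℚ) = s q * (s q).den := (Rat.mul_den_eq_num (s q)).symm
    rw [h2]
    ring
  choose z hz using h1
  refine ⟨∏ q, (s q).den, fun q => if h : q < M then z ⟨q, h⟩ else 0,
    Finset.prod_pos fun q _ => (s q).den_pos, fun q hq => dif_neg (not_lt.2 hq), fun q => ?_⟩
  show ((if h : (q : ℕ) < M then z ⟨q, h⟩ else 0 : ℤ) : ℚ) = _
  rw [dif_pos q.2]
  exact hz q

theorem LA_one (M : ℕ) (Q : Finset (ℕ → ℕ)) : ∃ (H : ℕ) (Φ : Finset (ℕ → ℤ)),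
    (∀ φ ∈ Φ, ∀ q, |φ q| ≤ H) ∧
      (∀ φ ∈ Φ, ∀ π ∈ Q, ∑ q ∈ Finset.range M, φ q * (π q : ℤ) = 0) ∧
      ∀ ψ : ℕ → ℚ, Ann M (Q : Set (ℕ → ℕ)) ψ →
        ∃ c : (ℕ → ℤ) → ℚ, ∀ q, q < M → ψ q = ∑ φ ∈ Φ, c φ * (φ q : ℚ) := by
  classical
  let V : Submodule ℚ (Fin M → ℚ) :=
    { carrier := {ψ | ∀ π ∈ Q, ∑ q : Fin M, ψ q * (π q : ℚ) = 0}
      add_mem' := by
        intro a b ha hb π hπ
        have : ∑ q : Fin M, (a + b) q * (π q : ℚ) =
            ∑ q : Fin M, a q * (π q : ℚ) + ∑ q : Fin M, b q * (π q : ℚ) := by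
          rw [← Finset.sum_add_distrib]
          exact Finset.sum_congr rfl fun q _ => by simp [add_mul]
        rw [this, ha π hπ, hb π hπ, add_zero]
      zero_mem' := by
        intro π _
        simp
      smul_mem' := by
        intro c a ha π hπ
        have : ∑ q : Fin M, (c • a) q * (π q : ℚ) = c * ∑ q : Fin M, a q * (π q : ℚ) := by
          rw [Finset.mul_sum]
          exact Finset.sum_congr rfl fun q _ => by simp [mul_assoc]
        rw [this, ha π hπ, mul_zero] }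
  obtain ⟨S, hS⟩ : V.FG := IsNoetherian.noetherian V
  choose N φ hN hφ0 hφ using (fun s : Fin M → ℚ => LA_clear s)
  have hsum : ∀ (χ : ℕ → ℤ) (π : ℕ → ℕ), ((∑ q ∈ Finset.range M, χ q * (π q : ℤ) : ℤ) : ℚ) =
      ∑ q : Fin M, (χ q : ℚ) * (π q : ℚ) := by
    intro χ π
    push_cast
    exact Finset.sum_range (fun q => (χ q : ℚ) * (π q : ℚ))
  refine ⟨∑ s ∈ S, ∑ q ∈ Finset.range M, (φ s q).natAbs, S.image φ, ?_, ?_, ?_⟩
  · intro χ hχ q
    obtain ⟨s, hs, rfl⟩ := Finset.mem_image.1 hχ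
    by_cases hq : q < M
    · have h1 : (φ s q).natAbs ≤ ∑ q ∈ Finset.range M, (φ s q).natAbs :=
        Finset.single_le_sum (f := fun q => (φ s q).natAbs) (fun _ _ => Nat.zero_le _)
          (Finset.mem_range.2 hq)
      have h2 : ∑ q ∈ Finset.range M, (φ s q).natAbs ≤
          ∑ s ∈ S, ∑ q ∈ Finset.range M, (φ s q).natAbs :=
        Finset.single_le_sum (f := fun s => ∑ q ∈ Finset.range M, (φ s q).natAbs)
          (fun _ _ => Nat.zero_le _) hs
      rw [Int.abs_eq_natAbs]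
      exact_mod_cast h1.trans h2
    · rw [hφ0 s q (not_lt.1 hq), abs_zero]
      positivity
  · intro χ hχ π hπ
    obtain ⟨s, hs, rfl⟩ := Finset.mem_image.1 hχ
    have hsV : s ∈ V := by
      rw [← hS]
      exact Submodule.subset_span hs
    have h1 : ∑ q : Fin M, s q * (π q : ℚ) = 0 := hsV π hπ
    have h2 : ((∑ q ∈ Finset.range M, φ s q * (π q : ℤ) : ℤ) : ℚ) = 0 := by
      rw [hsum]
      have : ∑ q : Fin M, ((φ s q : ℤ) : ℚ) * (π q : ℚ) = N s * ∑ q : Fin M, s q * (π q : ℚ) := by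
        rw [Finset.mul_sum]
        exact Finset.sum_congr rfl fun q _ => by rw [hφ s q]; ring
      rw [this, h1, mul_zero]
    exact_mod_cast h2
  · intro ψ hψ
    let f : (ℕ → ℤ) → (Fin M → ℚ) := fun χ q => (χ q : ℚ)
    have h1 : (fun q : Fin M => ψ q) ∈ V := by
      intro π hπ
      have := hψ π hπ
      rw [Finset.sum_range] at this
      exact this
    have h2 : V ≤ Submodule.span ℚ (f '' (S.image φ : Set (ℕ → ℤ))) := by
      rw [← hS, Submodule.span_le]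
      intro s hs
      have h3 : s = ((N s : ℚ)⁻¹) • f (φ s) := by
        funext q
        have hN0 : (N s : ℚ) ≠ 0 := by exact_mod_cast (hN s).ne'
        show s q = (N s : ℚ)⁻¹ * (φ s q : ℚ)
        rw [hφ s q]
        field_simp
      rw [h3]
      refine Submodule.smul_mem _ _ (Submodule.subset_span ⟨φ s, ?_, rfl⟩)
      rw [Finset.mem_coe, Finset.mem_image]
      exact ⟨s, hs, rfl⟩
    obtain ⟨c, hc⟩ := (Submodule.mem_span_image_finset_iff_exists_fun' ℚ).1 (h2 h1)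
    refine ⟨c, fun q hq => ?_⟩
    have := congrFun hc ⟨q, hq⟩
    rw [Finset.sum_apply] at this
    exact this.symm

theorem LA : LA_stmt := by
  classical
  intro M B
  choose H Φ h1 h2 h3 using (fun Q : Finset (ℕ → ℕ) => LA_one M Q)
  let U := (LA_finite M B).toFinset
  refine ⟨U.powerset.sup H, fun Q hQ => ⟨Φ Q, fun φ hφ q => ?_, h2 Q, h3 Q⟩⟩
  have hQU : Q ∈ U.powerset := by
    rw [Finset.mem_powerset]
    intro π hπ
    rw [Set.Finite.mem_toFinset]
    exact hQ π hπ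
  refine (h1 Q φ hφ q).trans ?_
  exact_mod_cast Finset.le_sup (f := H) hQU

end WZ
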